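import Pool.Agent.Helper45.PQ.StK

/-!
# Project PQ, module GQA: counts in the section of dimension five
-/

set_option autoImplicit false

open Module Classical
open scoped LinearAlgebra.Projectivization

namespace Pool.Agent.Helper63.PQ

open Pool.Agent.Helper45.PQ
open Pool.Agent.Helper53.PB (line left_mem_line right_mem_line line_le finrank_line mem_line
  eq_of_rep_mem_span rep_mk_mem)
open Pool.Agent.Helper53.PB.Polar (finrank_inf_ker)

universe u v

section

variable {F : Type u} {V : Type v} [Field F] [AddCommGroup V] [Module F V]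

private lemma line_sing {Q : QuadraticForm F V} {x y : ℙ F V} (hx : Q x.rep = 0)
    (hy : Q y.rep = 0) (h : QuadraticMap.polar Q x.rep y.rep = 0) :
    ∀ v ∈ line x y, Q v = 0 := by
  intro v hv
  obtain ⟨a, b, rfl⟩ := mem_line.1 hv
  rw [QuadraticMap.map_add Q, QuadraticMap.map_smul, QuadraticMap.map_smul, hx, hy,
    QuadraticMap.polar_smul_left, QuadraticMap.polar_smul_right, h]
  simp

/-- the core of part (1) -/
private lemma part_one [Finite F] [Finite V] [FiniteDimensional F V] (h1 : StCNT.{u, v})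
    {Q : QuadraticForm F V} (hq : Qd Q 5 2) {z z₂ : ℙ F V} (hz : Q z.rep = 0)
    (hz₂ : Q z₂.rep = 0) (hf : QuadraticMap.polar Q z.rep z₂.rep ≠ 0) :
    (sp Q (prp Q z.rep ⊓ prp Q z₂.rep)).card = Nat.card F + 1 := by
  have hf' : QuadraticMap.polar Q z₂.rep z.rep ≠ 0 := by rwa [QuadraticMap.polar_comm]
  have hzz : QuadraticMap.polar Q z.rep z.rep = 0 := by rw [polar_self_two, hz, mul_zero]
  have hzz₂ : QuadraticMap.polar Q z₂.rep z₂.rep = 0 := by rw [polar_self_two, hz₂, mul_zero]
  -- dimension of the perpendicular space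
  have d1 : finrank F (prp Q z.rep : Submodule F V) = 4 := by
    have h := finrank_inf_ker (⊤ : Submodule F V) (QuadraticMap.polarBilin Q z.rep)
      (fun h => hf (h (Submodule.mem_top : z₂.rep ∈ (⊤ : Submodule F V))))
    rw [top_inf_eq, finrank_top, hq.hd] at h
    have h' : finrank F (prp Q z.rep : Submodule F V) + 1 = 5 := h
    omega
  have d2 : finrank F (prp Q z.rep ⊓ prp Q z₂.rep : Submodule F V) = 1 + 2 := by
    have h := finrank_inf_ker (prp Q z.rep) (QuadraticMap.polarBilin Q z₂.rep)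
      (fun h => hf' (h (mem_prp.2 hzz)))
    rw [d1] at h
    have h' : finrank F (prp Q z.rep ⊓ prp Q z₂.rep : Submodule F V) + 1 = 4 := h
    omega
  -- the totally singular plane through `z`
  obtain ⟨U, hzU, hU, dU⟩ := hq.ext (Submodule.span F {z.rep}) (by
    intro x hx
    obtain ⟨c, rfl⟩ := Submodule.mem_span_singleton.1 hx
    rw [QuadraticMap.map_smul, hz, smul_zero])
  have hzU' : z.rep ∈ U := hzU (Submodule.mem_span_singleton_self _)
  have dL : finrank F (U ⊓ prp Q z₂.rep : Submodule F V) = 1 := by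
    have h := finrank_inf_ker U (QuadraticMap.polarBilin Q z₂.rep) (fun h => hf' (h hzU'))
    rw [dU] at h
    have h' : finrank F (U ⊓ prp Q z₂.rep : Submodule F V) + 1 = 2 := h
    omega
  obtain ⟨⟨v, hvU, hvz₂⟩, hv0, hspan⟩ := finrank_eq_one_iff'.1 dL
  have hv0' : v ≠ 0 := fun h => hv0 (by
    apply Subtype.ext
    exact h)
  have hspan' : ∀ x ∈ U, QuadraticMap.polar Q z₂.rep x = 0 → ∃ c : F, c • v = x := by
    intro x hx hx'
    obtain ⟨c, hc⟩ := hspan ⟨x, hx, mem_prp.2 hx'⟩
    exact ⟨c, congrArg Subtype.val hc⟩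
  have hQv : Q v = 0 := hU v hvU
  have hz₂v : QuadraticMap.polar Q z₂.rep v = 0 := mem_prp.1 hvz₂
  have hzv : QuadraticMap.polar Q z.rep v = 0 := polar_zero hU hzU' hvU
  have hvW : v ∈ prp Q z.rep ⊓ prp Q z₂.rep := ⟨mem_prp.2 hzv, mem_prp.2 hz₂v⟩
  have hvv : QuadraticMap.polar Q v v = 0 := by rw [polar_self_two, hQv, mul_zero]
  -- a vector not perpendicular to `v`
  have hw : ∃ w ∈ prp Q z.rep ⊓ prp Q z₂.rep, QuadraticMap.polar Q v w ≠ 0 := by
    by_contra hcon
    push Not at hcon
    apply hv0'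
    apply hq.nd
    intro y
    obtain ⟨a, ha⟩ : ∃ a : F, a = -(QuadraticMap.polar Q z₂.rep y /
      QuadraticMap.polar Q z₂.rep z.rep) := ⟨_, rfl⟩
    obtain ⟨b, hb⟩ : ∃ b : F, b = -(QuadraticMap.polar Q z.rep y /
      QuadraticMap.polar Q z.rep z₂.rep) := ⟨_, rfl⟩
    have hmem : y + a • z.rep + b • z₂.rep ∈ prp Q z.rep ⊓ prp Q z₂.rep := by
      refine ⟨mem_prp.2 ?_, mem_prp.2 ?_⟩
      · rw [QuadraticMap.polar_add_right, QuadraticMap.polar_add_right,
          QuadraticMap.polar_smul_right, QuadraticMap.polar_smul_right, hzz, hb]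
        simp only [smul_eq_mul, mul_zero, add_zero, neg_mul]
        rw [div_mul_cancel₀ _ hf, add_neg_cancel]
      · rw [QuadraticMap.polar_add_right, QuadraticMap.polar_add_right,
          QuadraticMap.polar_smul_right, QuadraticMap.polar_smul_right, hzz₂, ha]
        simp only [smul_eq_mul, mul_zero, add_zero, neg_mul]
        rw [div_mul_cancel₀ _ hf', add_neg_cancel]
    have h := hcon _ hmem
    rw [QuadraticMap.polar_add_right, QuadraticMap.polar_add_right,
      QuadraticMap.polar_smul_right, QuadraticMap.polar_smul_right,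
      QuadraticMap.polar_comm Q v z.rep, hzv, QuadraticMap.polar_comm Q v z₂.rep, hz₂v] at h
    simpa using h
  have hcnt := h1 F V Q (prp Q z.rep ⊓ prp Q z₂.rep) v 1 hvW hQv hw d2
  rw [pow_one] at hcnt
  -- the points perpendicular to `v`
  have hperp : (sp Q (prp Q z.rep ⊓ prp Q z₂.rep)).filter
      (fun y => ¬ QuadraticMap.polar Q v y.rep ≠ 0) = {Projectivization.mk F v hv0'} := by
    ext y
    rw [Finset.mem_filter, Finset.mem_singleton, mem_sp, not_not]
    constructor
    · rintro ⟨⟨⟨hy1, hy2⟩, hQy⟩, hvy⟩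
      have hy1' := mem_prp.1 hy1
      have hy2' := mem_prp.1 hy2
      have hyU : ∀ x ∈ U, QuadraticMap.polar Q y.rep x = 0 := by
        intro x hx
        obtain ⟨c, hc⟩ := hspan' (x - (QuadraticMap.polar Q z₂.rep x /
          QuadraticMap.polar Q z₂.rep z.rep) • z.rep)
          (U.sub_mem hx (U.smul_mem _ hzU')) (by
            rw [sub_eq_add_neg, ← neg_smul, QuadraticMap.polar_add_right,
              QuadraticMap.polar_smul_right]
            simp only [smul_eq_mul, neg_mul]
            rw [div_mul_cancel₀ _ hf', add_neg_cancel])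
        have hx' : x = c • v + (QuadraticMap.polar Q z₂.rep x /
          QuadraticMap.polar Q z₂.rep z.rep) • z.rep := by
          rw [hc]
          abel
        rw [hx', QuadraticMap.polar_add_right, QuadraticMap.polar_smul_right,
          QuadraticMap.polar_smul_right, QuadraticMap.polar_comm Q y.rep v, hvy,
          QuadraticMap.polar_comm Q y.rep z.rep, hy1']
        simp
      have hts := sing_sup hU hQy hyU
      have hle := hq.mx _ hts
      have heq : U = U ⊔ Submodule.span F {y.rep} :=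
        Submodule.eq_of_le_of_finrank_le le_sup_left (by rw [dU]; exact hle)
      have hyU' : y.rep ∈ U := by
        rw [heq]
        exact Submodule.mem_sup_right (Submodule.mem_span_singleton_self _)
      obtain ⟨c, hc⟩ := hspan' y.rep hyU' hy2'
      conv_lhs => rw [← y.mk_rep]
      rw [Projectivization.mk_eq_mk_iff']
      exact ⟨c, hc⟩
    · intro hy
      subst hy
      refine ⟨⟨?_, ?_⟩, ?_⟩
      · exact (rep_mk_mem hv0').2 hvW
      · obtain ⟨a, ha⟩ := Projectivization.exists_smul_eq_mk_rep F v hv0'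
        rw [← ha, Units.smul_def, QuadraticMap.map_smul, hQv, smul_zero]
      · obtain ⟨a, ha⟩ := Projectivization.exists_smul_eq_mk_rep F v hv0'
        rw [← ha, Units.smul_def, QuadraticMap.polar_smul_right, hvv, smul_zero]
  rw [← Finset.card_filter_add_card_filter_not (s := sp Q (prp Q z.rep ⊓ prp Q z₂.rep))
    (fun y => QuadraticMap.polar Q v y.rep ≠ 0), hcnt, hperp, Finset.card_singleton]

end

theorem hGQA (h1 : StCNT.{u, v}) (h2 : StLTP.{u, v}) (h3 : StOWK.{u, v}) : StGQA.{u, v} := by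
  intro F _ _ V _ _ _ _ Q hq
  have q1 : 1 ≤ Nat.card F := Nat.card_pos
  have p1 : ∀ z z₂ : ℙ F V, Q z.rep = 0 → Q z₂.rep = 0 →
      QuadraticMap.polar Q z.rep z₂.rep ≠ 0 →
      (sp Q (prp Q z.rep ⊓ prp Q z₂.rep)).card = Nat.card F + 1 :=
    fun z z₂ hz hz₂ hf => part_one h1 hq hz hz₂ hf
  have dtop : finrank F (⊤ : Submodule F V) = 3 + 2 := by
    rw [finrank_top, hq.hd]
  have p3 : ∀ z : ℙ F V, Q z.rep = 0 →
      ((sp Q (⊤ : Submodule F V)).filter (fun y => QuadraticMap.polar Q z.rep y.rep ≠ 0)).card =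
        Nat.card F ^ 3 := by
    intro z hz
    refine h1 F V Q ⊤ z.rep 3 Submodule.mem_top hz ?_ dtop
    by_contra hcon
    push Not at hcon
    exact z.rep_nonzero (hq.nd _ (fun y => hcon y Submodule.mem_top))
  have pex : ∀ z : ℙ F V, Q z.rep = 0 → ∃ z₂ : ℙ F V, Q z₂.rep = 0 ∧
      QuadraticMap.polar Q z.rep z₂.rep ≠ 0 := by
    intro z hz
    have h := p3 z hz
    have hpos : 0 < ((sp Q (⊤ : Submodule F V)).filter
        (fun y => QuadraticMap.polar Q z.rep y.rep ≠ 0)).card := by
      rw [h]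
      positivity
    obtain ⟨y, hy⟩ := Finset.card_pos.1 hpos
    rw [Finset.mem_filter, mem_sp] at hy
    exact ⟨y, hy.1.2, hy.2⟩
  have pl : ∀ z : ℙ F V, Q z.rep = 0 → (lins Q ⊤ z.rep).ncard = Nat.card F + 1 ∧
      (sp Q (⊤ : Submodule F V)).card = (Nat.card F + 1) * (Nat.card F ^ 2 + 1) := by
    intro z hz
    obtain ⟨z₂, hz₂, hf⟩ := pex z hz
    obtain ⟨l1, -, l3⟩ := h2 F V Q ⊤ z z₂ 3 Submodule.mem_top Submodule.mem_top hz hz₂ hf dtop
    rw [top_inf_eq, p1 z z₂ hz hz₂ hf] at l1 l3
    refine ⟨l1, ?_⟩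
    rw [l3]
    ring
  have p2 : (sp Q (⊤ : Submodule F V)).card = (Nat.card F + 1) * (Nat.card F ^ 2 + 1) := by
    obtain ⟨G, -, hG, dG⟩ := hq.ext ⊥ (by
      intro x hx
      rw [(Submodule.mem_bot F).1 hx, QuadraticMap.map_zero])
    obtain ⟨x, hx, hx0⟩ : ∃ x ∈ G, x ≠ 0 := by
      apply Submodule.exists_mem_ne_zero_of_ne_bot
      intro h
      rw [h, finrank_bot] at dG
      omega
    refine (pl (Projectivization.mk F x hx0) ?_).2
    exact hG _ ((rep_mk_mem hx0).2 hx)
  refine ⟨p1, p2, p3, ?_⟩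
  intro O hO
  refine ⟨?_, ?_, ?_⟩
  · have h := h3 F V Q O hO ⊤ (Nat.card F + 1) (by omega) (by
      intro z hz
      exact (pl z (mem_sp.1 hz).2).1)
    have hfil : O.filter (fun y => y.rep ∈ (⊤ : Submodule F V)) = O :=
      Finset.filter_true_of_mem (fun y _ => Submodule.mem_top)
    rw [hfil, p2] at h
    exact Nat.eq_of_mul_eq_mul_left (by omega) h
  · intro z hz hzO
    have himg : (lins Q ⊤ z.rep) = (fun y => line z y) ''
        ((O.filter (fun y => QuadraticMap.polar Q z.rep y.rep = 0) : Finset (ℙ F V)) :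
          Set (ℙ F V)) := by
      ext l
      constructor
      · rintro ⟨-, hzl, dl, hl⟩
        obtain ⟨y, ⟨hyO, hyl⟩, -⟩ := hO.2 l hl dl
        have hzy : z ≠ y := by
          intro h
          exact hzO (h ▸ hyO)
        refine ⟨y, ?_, ?_⟩
        · rw [Finset.mem_coe, Finset.mem_filter]
          exact ⟨hyO, polar_zero hl hzl hyl⟩
        · apply Submodule.eq_of_le_of_finrank_eq (line_le hzl hyl)
          rw [finrank_line hzy, dl]
      · rintro ⟨y, hy, rfl⟩
        rw [Finset.mem_coe, Finset.mem_filter] at hy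
        have hzy : z ≠ y := by
          intro h
          exact hzO (h ▸ hy.1)
        exact ⟨le_top, left_mem_line _ _, finrank_line hzy,
          line_sing hz (hO.1 _ hy.1) hy.2⟩
    have hinj : Set.InjOn (fun y => line z y)
        ((O.filter (fun y => QuadraticMap.polar Q z.rep y.rep = 0) : Finset (ℙ F V)) :
          Set (ℙ F V)) := by
      intro y hy y' hy' heq
      rw [Finset.mem_coe, Finset.mem_filter] at hy hy'
      have hzy : z ≠ y := by
        intro h
        exact hzO (h ▸ hy.1)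
      have heq' : line z y = line z y' := heq
      obtain ⟨p, -, hp⟩ := hO.2 (line z y) (line_sing hz (hO.1 _ hy.1) hy.2) (finrank_line hzy)
      rw [hp y ⟨hy.1, right_mem_line _ _⟩, hp y' ⟨hy'.1, by
        rw [heq']
        exact right_mem_line _ _⟩]
    have h := (pl z hz).1
    rw [himg, hinj.ncard_image, Set.ncard_coe_finset] at h
    exact h
  · intro y hy z hz hyz hf
    obtain ⟨p, -, hp⟩ := hO.2 (line y z) (line_sing (hO.1 _ hy) (hO.1 _ hz) hf)
      (finrank_line hyz)
    apply hyz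
    rw [hp y ⟨hy, left_mem_line _ _⟩, hp z ⟨hz, right_mem_line _ _⟩]

end Pool.Agent.Helper63.PQ
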