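import Pool.Agent.Helper45.PQ.StK

/-!
# Project PQ, module MMT: first and second moments
-/

set_option autoImplicit false

open Module Classical
open scoped LinearAlgebra.Projectivization

namespace Pool.Agent.Helper63.PQ

open Pool.Agent.Helper45.PQ

universe u v

/-- summing over the nonzero `b` -/
private lemma sum_b {F : Type u} [Field F] [Fintype F] (a₁ a₂ t₁ t₂ : F) (ha : a₁ ≠ 0) :
    ∑ b ∈ (Finset.univ : Finset F).erase 0,
      (if a₁ * b + t₁ = 0 then (1 : ℤ) else 0) * (if a₂ * b + t₂ = 0 then (1 : ℤ) else 0) =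
    if t₁ ≠ 0 ∧ a₂ * t₁ = a₁ * t₂ then 1 else 0 := by
  have e : ∀ b : F, (if a₁ * b + t₁ = 0 then (1 : ℤ) else 0) *
      (if a₂ * b + t₂ = 0 then (1 : ℤ) else 0) =
      if b = -t₁ / a₁ then (if a₂ * b + t₂ = 0 then (1 : ℤ) else 0) else 0 := by
    intro b
    have : a₁ * b + t₁ = 0 ↔ b = -t₁ / a₁ := by
      rw [eq_div_iff ha]
      constructor
      · intro h
        linear_combination h
      · intro h
        linear_combination h
    simp only [this]
    split_ifs <;> simp
  rw [Finset.sum_congr rfl (fun b _ => e b), Finset.sum_ite_eq']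
  have h1 : -t₁ / a₁ ∈ (Finset.univ : Finset F).erase 0 ↔ t₁ ≠ 0 := by
    simp [ha]
  have h2 : a₂ * (-t₁ / a₁) + t₂ = 0 ↔ a₂ * t₁ = a₁ * t₂ := by
    constructor
    · intro h
      have h' : a₁ * (a₂ * (-t₁ / a₁) + t₂) = 0 := by rw [h, mul_zero]
      have h'' : a₁ * (a₂ * (-t₁ / a₁) + t₂) = -(a₂ * t₁) + a₁ * t₂ := by
        field_simp
      rw [h''] at h'
      linear_combination -h'
    · intro h
      have : a₂ * (-t₁ / a₁) + t₂ = (a₁ * t₂ - a₂ * t₁) / a₁ := by
        field_simp
        ring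
      rw [this, h, sub_self, zero_div]
  simp only [h1, h2]
  split_ifs <;> simp_all

/-- the count of pairs as a sum over flags -/
private lemma cnt_eq {F : Type u} {V : Type v} [Field F] [AddCommGroup V] [Module F V]
    (Q : QuadraticForm F V) (O : Finset (ℙ F V)) (X : ℙ F V → Finset F) (z : V) (b : F) :
    (cnt Q O X z b : ℤ) = ∑ i ∈ O.sigma X,
      if i.2 * b + QuadraticMap.polar Q i.1.rep z = 0 then (1 : ℤ) else 0 := by
  rw [Finset.sum_sigma]
  unfold cnt
  push_cast
  apply Finset.sum_congr rfl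
  intro y _
  rw [Finset.card_filter]
  push_cast
  rfl

/-- the pair sums -/
private noncomputable def MM {F : Type u} {V : Type v} [Field F] [Fintype F] [AddCommGroup V]
    [Module F V] [Finite V] (Q : QuadraticForm F V) (i j : (_ : ℙ F V) × F) : ℤ :=
  ∑ z ∈ sp Q (⊤ : Submodule F V), ∑ b ∈ (Finset.univ : Finset F).erase 0,
    (if i.2 * b + QuadraticMap.polar Q i.1.rep z.rep = 0 then (1 : ℤ) else 0) *
      (if j.2 * b + QuadraticMap.polar Q j.1.rep z.rep = 0 then (1 : ℤ) else 0)

private lemma MM_eq {F : Type u} {V : Type v} [Field F] [Fintype F] [AddCommGroup V]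
    [Module F V] [Finite V] (Q : QuadraticForm F V) (i j : (_ : ℙ F V) × F) (hi : i.2 ≠ 0) :
    MM Q i j = (((sp Q (⊤ : Submodule F V)).filter (fun z =>
      QuadraticMap.polar Q i.1.rep z.rep ≠ 0 ∧ j.2 * QuadraticMap.polar Q i.1.rep z.rep =
        i.2 * QuadraticMap.polar Q j.1.rep z.rep)).card : ℤ) := by
  unfold MM
  rw [Finset.card_filter]
  push_cast
  apply Finset.sum_congr rfl
  intro z _
  rw [sum_b _ _ _ _ hi]

private lemma ind_sq {F : Type u} {V : Type v} [Field F] [Fintype F] [AddCommGroup V]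
    [Module F V] [Finite V] (Q : QuadraticForm F V) (i : (_ : ℙ F V) × F) :
    ∑ z ∈ sp Q (⊤ : Submodule F V), ∑ b ∈ (Finset.univ : Finset F).erase 0,
      (if i.2 * b + QuadraticMap.polar Q i.1.rep z.rep = 0 then (1 : ℤ) else 0) = MM Q i i := by
  unfold MM
  apply Finset.sum_congr rfl
  intro z _
  apply Finset.sum_congr rfl
  intro b _
  split_ifs <;> simp

theorem hMMT (h1 : StGQA.{u, v}) (h2 : StKAP.{u, v}) (h3 : StSSQ.{u, v}) (h4 : StQFB.{v})
    (h5 : StETA.{u}) : StMMT.{u, v} := by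
  intro F _ _ two V _ _ _ _ Q hQ O hO X hX
  obtain ⟨g1, -, g3, gO⟩ := h1 F V Q hQ
  obtain ⟨-, -, g6⟩ := gO O hO
  obtain ⟨κ, hκ, hK⟩ := h2 F two V Q hQ
  have hS := h3 F two V Q hQ O hO
  obtain ⟨e1, e2, -, -, -⟩ := h5 F two
  have e0 : eta (0 : F) = 0 := by simp [eta]
  obtain ⟨q, hq⟩ : ∃ q : ℕ, q = Nat.card F := ⟨_, rfl⟩
  have hq1 : 1 ≤ q := by
    rw [hq]
    exact Nat.card_pos
  rw [← hq] at g1 g3 hK hS ⊢
  obtain ⟨I, hI⟩ : ∃ I : Finset ((_ : ℙ F V) × F), I = O.sigma X := ⟨_, rfl⟩
  have hcard : I.card = ∑ y ∈ O, (X y).card := by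
    rw [hI, Finset.card_sigma]
  have hmem : ∀ i ∈ I, i.1 ∈ O ∧ i.2 ≠ 0 := by
    intro i hi
    rw [hI, Finset.mem_sigma] at hi
    refine ⟨hi.1, ?_⟩
    intro h0
    rw [h0] at hi
    exact hX _ hi.1 hi.2
  -- diagonal
  have hdiag : ∀ i ∈ I, MM Q i i = (q : ℤ) ^ 3 := by
    intro i hi
    obtain ⟨h, h'⟩ := hmem i hi
    rw [MM_eq Q i i h']
    simp only [and_true]
    rw [g3 i.1 (hO.1 _ h)]
    push_cast
    rfl
  constructor
  · have key : ((∑ z ∈ sp Q (⊤ : Submodule F V), ∑ b ∈ (Finset.univ : Finset F).erase 0,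
        cnt Q O X z.rep b : ℕ) : ℤ) = (q : ℤ) ^ 3 * (I.card : ℤ) := by
      push_cast
      simp only [cnt_eq, ← hI]
      have : ∀ z : ℙ F V, ∑ b ∈ (Finset.univ : Finset F).erase 0, ∑ i ∈ I,
          (if i.2 * b + QuadraticMap.polar Q i.1.rep z.rep = 0 then (1 : ℤ) else 0) =
          ∑ i ∈ I, ∑ b ∈ (Finset.univ : Finset F).erase 0,
          (if i.2 * b + QuadraticMap.polar Q i.1.rep z.rep = 0 then (1 : ℤ) else 0) :=
        fun z => Finset.sum_comm
      simp only [this]
      rw [Finset.sum_comm]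
      rw [Finset.sum_congr rfl (fun i hi => (ind_sq Q i).trans (hdiag i hi))]
      rw [Finset.sum_const, nsmul_eq_mul, mul_comm]
    rw [hcard] at key
    exact_mod_cast key
  · -- second moment
    have hexp : ((∑ z ∈ sp Q (⊤ : Submodule F V), ∑ b ∈ (Finset.univ : Finset F).erase 0,
        cnt Q O X z.rep b ^ 2 : ℕ) : ℤ) = ∑ i ∈ I, ∑ j ∈ I, MM Q i j := by
      push_cast
      simp only [cnt_eq, ← hI]
      have : ∀ (z : ℙ F V) (b : F), (∑ i ∈ I,
          (if i.2 * b + QuadraticMap.polar Q i.1.rep z.rep = 0 then (1 : ℤ) else 0)) ^ 2 =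
          ∑ i ∈ I, ∑ j ∈ I,
          (if i.2 * b + QuadraticMap.polar Q i.1.rep z.rep = 0 then (1 : ℤ) else 0) *
          (if j.2 * b + QuadraticMap.polar Q j.1.rep z.rep = 0 then (1 : ℤ) else 0) := by
        intro z b
        rw [sq, Finset.sum_mul_sum]
      simp only [this]
      unfold MM
      have c1 : ∀ z : ℙ F V, ∑ b ∈ (Finset.univ : Finset F).erase 0, ∑ i ∈ I, ∑ j ∈ I,
          (if i.2 * b + QuadraticMap.polar Q i.1.rep z.rep = 0 then (1 : ℤ) else 0) *
          (if j.2 * b + QuadraticMap.polar Q j.1.rep z.rep = 0 then (1 : ℤ) else 0) =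
          ∑ i ∈ I, ∑ j ∈ I, ∑ b ∈ (Finset.univ : Finset F).erase 0,
          (if i.2 * b + QuadraticMap.polar Q i.1.rep z.rep = 0 then (1 : ℤ) else 0) *
          (if j.2 * b + QuadraticMap.polar Q j.1.rep z.rep = 0 then (1 : ℤ) else 0) := by
        intro z
        rw [Finset.sum_comm]
        exact Finset.sum_congr rfl (fun i _ => Finset.sum_comm)
      simp only [c1]
      rw [Finset.sum_comm]
      exact Finset.sum_congr rfl (fun i _ => Finset.sum_comm)
    have hoff : ∀ i ∈ I, ∀ j ∈ I, i.1 ≠ j.1 → MM Q i j = (q : ℤ) ^ 2 +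
        q * (κ * eta (-1 : F) * (eta i.2 * eta j.2 *
          eta (QuadraticMap.polar Q i.1.rep j.1.rep))) := by
      intro i hi j hj hij
      obtain ⟨hiO, hi0⟩ := hmem i hi
      obtain ⟨hjO, hj0⟩ := hmem j hj
      have hQi := hO.1 _ hiO
      have hQj := hO.1 _ hjO
      have hf := g6 _ hiO _ hjO hij
      obtain ⟨w, hw⟩ : ∃ w : V, w = j.2 • i.1.rep - i.2 • j.1.rep := ⟨_, rfl⟩
      have hwz : ∀ z : V, QuadraticMap.polar Q w z = j.2 * QuadraticMap.polar Q i.1.rep z -
          i.2 * QuadraticMap.polar Q j.1.rep z := by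
        intro z
        rw [hw, sub_eq_add_neg, ← neg_smul, QuadraticMap.polar_add_left,
          QuadraticMap.polar_smul_left, QuadraticMap.polar_smul_left]
        simp only [smul_eq_mul]
        ring
      have hQw : Q w = -1 * i.2 * j.2 * QuadraticMap.polar Q i.1.rep j.1.rep := by
        rw [hw, sub_eq_add_neg, ← neg_smul, QuadraticMap.map_add Q, QuadraticMap.map_smul,
          QuadraticMap.map_smul, hQi, hQj, QuadraticMap.polar_smul_left,
          QuadraticMap.polar_smul_right]
        simp only [smul_eq_mul]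
        ring
      have hQw0 : Q w ≠ 0 := by
        rw [hQw]
        exact mul_ne_zero (mul_ne_zero (mul_ne_zero (by norm_num) hi0) hj0) hf
      have hk := hK w hQw0
      have hη : eta (Q w) = eta (-1 : F) * (eta i.2 * eta j.2 *
          eta (QuadraticMap.polar Q i.1.rep j.1.rep)) := by
        rw [hQw, e1, e1, e1]
        ring
      rw [MM_eq Q i j hi0]
      have hsplit : ((sp Q (prp Q w)).filter (fun z =>
          QuadraticMap.polar Q i.1.rep z.rep = 0)).card + ((sp Q (⊤ : Submodule F V)).filter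
          (fun z => QuadraticMap.polar Q i.1.rep z.rep ≠ 0 ∧
            j.2 * QuadraticMap.polar Q i.1.rep z.rep =
            i.2 * QuadraticMap.polar Q j.1.rep z.rep)).card = (sp Q (prp Q w)).card := by
        rw [← Finset.card_filter_add_card_filter_not (s := sp Q (prp Q w))
          (fun z => QuadraticMap.polar Q i.1.rep z.rep = 0)]
        congr 2
        ext z
        simp only [Finset.mem_filter, mem_sp, mem_prp, hwz, Submodule.mem_top, true_and]
        constructor
        · rintro ⟨h, h', h''⟩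
          exact ⟨⟨by rw [h'', sub_self], h⟩, h'⟩
        · rintro ⟨⟨h, h'⟩, h''⟩
          exact ⟨h', h'', sub_eq_zero.mp h⟩
      have hperp : ((sp Q (prp Q w)).filter (fun z =>
          QuadraticMap.polar Q i.1.rep z.rep = 0)) = sp Q (prp Q i.1.rep ⊓ prp Q j.1.rep) := by
        ext z
        simp only [Finset.mem_filter, mem_sp, mem_prp, hwz, Submodule.mem_inf]
        constructor
        · rintro ⟨⟨h, h'⟩, h''⟩
          rw [h'', mul_zero, zero_sub, neg_eq_zero, mul_eq_zero] at h
          exact ⟨⟨h'', h.resolve_left hi0⟩, h'⟩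
        · rintro ⟨⟨h, h'⟩, h''⟩
          exact ⟨⟨by rw [h, h', mul_zero, mul_zero, sub_zero], h''⟩, h⟩
      rw [hperp, g1 _ _ hQi hQj hf] at hsplit
      have : (((sp Q (⊤ : Submodule F V)).filter
          (fun z => QuadraticMap.polar Q i.1.rep z.rep ≠ 0 ∧
            j.2 * QuadraticMap.polar Q i.1.rep z.rep =
            i.2 * QuadraticMap.polar Q j.1.rep z.rep)).card : ℤ) =
          ((sp Q (prp Q w)).card : ℤ) - (q + 1) := by
        rw [← hsplit]
        push_cast
        ring
      rw [this, hk, hη]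
      ring
    have hval : ∀ i ∈ I, ∀ j ∈ I, MM Q i j = (if i = j then (q : ℤ) ^ 3 else 0) +
        ((q : ℤ) ^ 2 - (if i.1 = j.1 then (q : ℤ) ^ 2 else 0)) +
        q * (κ * eta (-1 : F)) * (eta i.2 * eta (QuadraticMap.polar Q i.1.rep j.1.rep) *
          eta j.2) := by
      intro i hi j hj
      by_cases hij : i.1 = j.1
      · have hp : QuadraticMap.polar Q i.1.rep j.1.rep = 0 := by
          rw [← hij, polar_self_two, hO.1 _ (hmem i hi).1, mul_zero]
        rw [hp, e0, if_pos hij]
        by_cases hij2 : i = j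
        · subst hij2
          rw [hdiag i hi, if_pos rfl]
          ring
        · rw [if_neg hij2, MM_eq Q i j (hmem i hi).2]
          have hne : i.2 ≠ j.2 := by
            intro h
            apply hij2
            cases i
            cases j
            simp only at hij h
            subst hij
            subst h
            rfl
          have : ((sp Q (⊤ : Submodule F V)).filter
            (fun z => QuadraticMap.polar Q i.1.rep z.rep ≠ 0 ∧
            j.2 * QuadraticMap.polar Q i.1.rep z.rep =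
            i.2 * QuadraticMap.polar Q j.1.rep z.rep)) = ∅ := by
            rw [Finset.filter_eq_empty_iff]
            rintro z - ⟨h, h'⟩
            rw [← hij] at h'
            exact hne (mul_right_cancel₀ h h').symm
          rw [this]
          simp
      · have hij2 : i ≠ j := fun h => hij (by rw [h])
        rw [hoff i hi j hj hij, if_neg hij, if_neg hij2]
        ring
    obtain ⟨φ, hφ⟩ : ∃ φ : ℙ F V → ℤ, φ = fun y => ∑ a ∈ X y, eta a := ⟨_, rfl⟩
    have s1 : ∑ i ∈ I, ∑ j ∈ I, (if i = j then (q : ℤ) ^ 3 else 0) = (q : ℤ) ^ 3 * I.card := by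
      rw [Finset.sum_congr rfl (fun i hi => by
        rw [Finset.sum_ite_eq, if_pos hi])]
      rw [Finset.sum_const, nsmul_eq_mul, mul_comm]
    have s2 : ∑ i ∈ I, ∑ j ∈ I, (if i.1 = j.1 then (q : ℤ) ^ 2 else 0) =
        (q : ℤ) ^ 2 * ∑ y ∈ O, ((X y).card : ℤ) ^ 2 := by
      rw [hI, Finset.sum_sigma, Finset.mul_sum]
      apply Finset.sum_congr rfl
      intro y hy
      have : ∀ a ∈ X y, ∑ j ∈ O.sigma X, (if y = j.1 then (q : ℤ) ^ 2 else 0) =
          (q : ℤ) ^ 2 * ((X y).card : ℤ) := by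
        intro a _
        rw [Finset.sum_sigma]
        have hin : ∀ y' ∈ O, ∑ _x ∈ X y', (if y = y' then (q : ℤ) ^ 2 else 0) =
            if y = y' then ((X y').card : ℤ) * (q : ℤ) ^ 2 else 0 := by
          intro y' _
          rw [Finset.sum_const, nsmul_eq_mul, mul_ite, mul_zero]
        rw [Finset.sum_congr rfl hin, Finset.sum_ite_eq, if_pos hy]
        ring
      rw [Finset.sum_congr rfl this, Finset.sum_const, nsmul_eq_mul]
      ring
    have s3 : ∑ i ∈ I, ∑ j ∈ I, (eta i.2 * eta (QuadraticMap.polar Q i.1.rep j.1.rep) *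
          eta j.2) = ∑ x ∈ O, ∑ y ∈ O, φ x * eta (QuadraticMap.polar Q x.rep y.rep) * φ y := by
      rw [hI, Finset.sum_sigma]
      apply Finset.sum_congr rfl
      intro x _
      rw [hφ]
      simp only
      have : ∀ a ∈ X x, ∑ j ∈ O.sigma X, (eta a * eta (QuadraticMap.polar Q x.rep j.1.rep) *
          eta j.2) = ∑ y ∈ O, eta a * eta (QuadraticMap.polar Q x.rep y.rep) *
          ∑ a' ∈ X y, eta a' := by
        intro a _
        rw [Finset.sum_sigma]
        apply Finset.sum_congr rfl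
        intro y _
        rw [Finset.mul_sum]
      rw [Finset.sum_congr rfl this, Finset.sum_comm]
      apply Finset.sum_congr rfl
      intro y _
      rw [Finset.sum_mul, Finset.sum_mul]
    have htot : ∑ i ∈ I, ∑ j ∈ I, MM Q i j = (q : ℤ) ^ 3 * I.card +
        ((q : ℤ) ^ 2 * (I.card : ℤ) ^ 2 - (q : ℤ) ^ 2 * ∑ y ∈ O, ((X y).card : ℤ) ^ 2) +
        q * (κ * eta (-1 : F)) *
          ∑ x ∈ O, ∑ y ∈ O, φ x * eta (QuadraticMap.polar Q x.rep y.rep) * φ y := by
      rw [Finset.sum_congr rfl (fun i hi => Finset.sum_congr rfl (fun j hj => hval i hi j hj))]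
      rw [Finset.sum_congr rfl (fun i hi => Finset.sum_add_distrib)]
      rw [Finset.sum_add_distrib]
      rw [Finset.sum_congr rfl (fun i hi => Finset.sum_add_distrib)]
      rw [Finset.sum_add_distrib, s1]
      rw [Finset.sum_congr rfl (fun i hi => Finset.sum_sub_distrib _ _)]
      rw [Finset.sum_sub_distrib, s2]
      rw [Finset.sum_congr rfl (fun i hi => (Finset.mul_sum _ _ _).symm)]
      rw [← Finset.mul_sum, s3]
      simp only [Finset.sum_const, nsmul_eq_mul]
      ring
    have hfb := h4 (ℙ F V) O (fun x y => eta (QuadraticMap.polar Q x.rep y.rep)) q φ hq1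
      (fun x _ y _ => by simp only [QuadraticMap.polar_comm]) (fun x hx y hy => hS x hx y hy)
    have hκη : |κ * eta (-1 : F)| = 1 := by
      have hm : eta (-1 : F) = 1 ∨ eta (-1 : F) = -1 := e2 _ (by norm_num)
      rcases hκ with h | h <;> rcases hm with h' | h' <;> rw [h, h'] <;> norm_num
    have hφb : ∀ y, φ y ^ 2 ≤ ((X y).card : ℤ) ^ 2 := by
      intro y
      have habs : |φ y| ≤ ((X y).card : ℤ) := by
        rw [hφ]
        simp only
        refine (Finset.abs_sum_le_sum_abs _ _).trans ?_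
        have : ∀ a ∈ X y, |eta a| ≤ (1 : ℤ) := by
          intro a _
          by_cases ha : a = 0
          · rw [ha, e0]
            norm_num
          · rcases e2 a ha with h | h <;> rw [h] <;> norm_num
        refine (Finset.sum_le_sum this).trans ?_
        rw [Finset.sum_const, nsmul_eq_mul, mul_one]
      have := abs_le.mp habs
      nlinarith [abs_le.mp habs, abs_nonneg (φ y)]
    have hsum : ∑ y ∈ O, φ y ^ 2 ≤ ∑ y ∈ O, ((X y).card : ℤ) ^ 2 :=
      Finset.sum_le_sum (fun y _ => hφb y)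
    obtain ⟨Z, hZ⟩ : ∃ Z : ℤ, Z = ∑ x ∈ O, ∑ y ∈ O,
      φ x * eta (QuadraticMap.polar Q x.rep y.rep) * φ y := ⟨_, rfl⟩
    rw [← hZ] at hfb htot
    have hb1 : (κ * eta (-1 : F)) * Z ≤ q * ∑ y ∈ O, ((X y).card : ℤ) ^ 2 := by
      have h1' : (κ * eta (-1 : F)) * Z ≤ |Z| := by
        refine (le_abs_self _).trans ?_
        rw [abs_mul, hκη, one_mul]
      refine h1'.trans (hfb.trans ?_)
      exact mul_le_mul_of_nonneg_left hsum (by positivity)
    have hfin : ((∑ z ∈ sp Q (⊤ : Submodule F V), ∑ b ∈ (Finset.univ : Finset F).erase 0,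
        cnt Q O X z.rep b ^ 2 : ℕ) : ℤ) ≤ (q : ℤ) ^ 3 * I.card + (q : ℤ) ^ 2 * (I.card : ℤ) ^ 2 := by
      rw [hexp, htot]
      have hq0 : (0 : ℤ) ≤ q := by positivity
      have := mul_le_mul_of_nonneg_left hb1 hq0
      nlinarith [this]
    rw [hcard] at hfin
    exact_mod_cast hfin

end Pool.Agent.Helper63.PQ
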